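import Pool.Agent.Lib.MP_8f66f0_al_Int.Final

/-! # The integral Chern character of the Whitehead group of torsion-free groups -/

set_option autoImplicit false

namespace Pool.Agent.Results.MP_8f66f0_al.HigherChern

open Pool.Agent.Lib.MP_8f66f0_al_ChernS Pool.Agent.Lib.MP_8f66f0_al_Int

/-- Let `N` be a positive integer and `Γ` a group without elements of order `p` for the primes `p`
dividing `N` (e.g. any torsion-free group). Let `A` be an invertible matrix over `ℤΓ` with inverse
`B`, and `m` a natural number. Let `ω` be a cyclic cocycle with `2m+2` arguments and values in an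
abelian group `M`, which is zero at `c` unless `c = 1` and `m > 0`, or `c` is not a `p`-th power in
`Γ` for the primes `p` dividing `N`. Then `m!` times the pairing of the Chern character of `A`
with `ω` lies in `N M`. So it is zero if `Γ` is torsion-free, `m > 0`, `M` is finitely generated
and `ω` is supported at `c = 1`. -/
theorem result.{u, w} (Γ : Type u) [Group Γ] (N : ℕ) (hN : 0 < N)
    (hΓ : ∀ p : ℕ, p.Prime → p ∣ N → ∀ g : Γ, g ^ p = 1 → g = 1) (n m : ℕ)
    (A B : Matrix (Fin n) (Fin n) (MonoidAlgebra ℤ Γ)) (hAB : A * B = 1) (hBA : B * A = 1)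
    (M : Type w) [AddCommGroup M] (ω : Γ → List Γ → M) (hω : IsCyclicCocycle (2 * (m + 1)) ω)
    (hsupp : ∀ c u, ω c u ≠ 0 → (c = 1 ∧ 0 < m) ∨
      ∀ p : ℕ, p.Prime → p ∣ N → ∀ v : Γ, v ^ p ≠ c) :
    ∃ x : M, m.factorial • pairing m A B ω = N • x :=
  main_intN N hN hΓ A B hAB hBA hω hsupp

end Pool.Agent.Results.MP_8f66f0_al.HigherChern
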