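import Pool.Agent.Lib.MP_8f66f0_al.Chain

set_option autoImplicit false

open MonoidAlgebra Matrix Filter Pool.Agent.Lib.MP_8f66f0_al

namespace Pool.Agent.Results.MP_8f66f0_al.TorsionKilling

/-- The finitely presented group with generators `Fin d` and with relators the elements of `R`
and of `l`. -/
abbrev FPQuot {d : ℕ} (R : Finset (FreeGroup (Fin d))) (l : List (FreeGroup (Fin d))) : Type :=
  FreeGroup (Fin d) ⧸ Subgroup.normalClosure ((R : Set (FreeGroup (Fin d))) ∪ {y | y ∈ l})

/-- the quotient map. -/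
abbrev toFP {d : ℕ} (R : Finset (FreeGroup (Fin d))) (l : List (FreeGroup (Fin d))) :
    FreeGroup (Fin d) →* FPQuot R l :=
  QuotientGroup.mk' _

/-- **Main result.** -/
theorem result :
    (∀ (Γ : Type) [Group Γ], TorsionFree Γ → WhVanishes Γ) ↔
      ∀ (d : ℕ) (R : Finset (FreeGroup (Fin d))) (n : ℕ)
        (A B : Matrix (Fin n) (Fin n) (MonoidAlgebra ℤ (FreeGroup (Fin d)))),
        A.map (gr (toFP R [])) * B.map (gr (toFP R [])) = 1 →
        B.map (gr (toFP R [])) * A.map (gr (toFP R [])) = 1 →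
        ∃ l : List (FreeGroup (Fin d)), TorsionChain (R : Set (FreeGroup (Fin d))) l ∧
          ClassVanishes (A.map (gr (toFP R l))) := by
  constructor
  · intro conj d R n A B hAB hBA
    exact exists_chain_vanishes conj _ A B hAB hBA
  · intro h Γ _ hΓ
    rw [whVanishes_iff]
    intro n A B hAB hBA
    obtain ⟨d, φ, A', B', rfl, rfl⟩ := exists_free_lift A B
    obtain ⟨R, hR, hR'⟩ := exists_finite_relators φ A' B' hAB hBA
    obtain ⟨h1, h2⟩ := hR' (FPQuot R []) (toFP R []) (by
      intro r hr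
      exact (QuotientGroup.eq_one_iff _).2 (Subgroup.subset_normalClosure (Or.inl hr)))
    obtain ⟨l, hl, hcl⟩ := h d R n A' B' h1 h2
    let ψ : FPQuot R l →* Γ := QuotientGroup.lift _ φ (chain_le_ker hΓ φ hR hl)
    have h7 := hcl.map ψ
    rw [map_gr_gr] at h7
    have h8 : ψ.comp (toFP R l) = φ := by
      refine MonoidHom.ext fun x => ?_
      rfl
    rw [h8] at h7
    exact h7

end Pool.Agent.Results.MP_8f66f0_al.TorsionKilling
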